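import Pool.Agent.H550R2.Cl.Chi

set_option autoImplicit false

/-! Approximating the chromatic number within `N ^ (1 - 2 δ)` by random semidefinite programs that
are symmetric under the translations of small blocks of vertices: order at least
`2 ^ (N ^ (δ / 2))`, also for one-sided error. -/

namespace Pool.Agent.Results.MP_f404b1_lc.ChromaticGapSDP

open Pool.Agent.H550R2.Lift (SDP edPerm gvec)
open Pool.Agent.H550R2.Neg (RSDP)
open Pool.Agent.H550R2.Cl (TransSym SepChi chi_poly)

/-- All programs are symmetric under all permutations of the vertices. -/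
def FullSym {W : Type} (R : RSDP (Sym2 W)) : Prop :=
  ∀ ω, ∀ p : Equiv.Perm W, ∃ O, (R.prog ω).IsAut (edPerm p) O

/-- For every `δ` with `0 < δ < 1 / 2` and all large `N`:

* there are a number `M` of blocks and a dimension `b` with `2 ^ b ≤ N ^ δ` and `M * 2 ^ b ≤ N`
  such that for every vertex set `W` and every choice `blk` of `M` disjoint blocks of `2 ^ b`
  vertices of `W`, every random semidefinite program that is symmetric under the translations of
  the blocks and tells graphs on `W` that can be coloured with `N ^ δ` colours from graphs that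
  cannot be coloured with fewer than `N ^ (1 - δ)` colours (gap `1 / 3` between the acceptance
  probabilities) has order at least `2 ^ (N ^ (δ / 2))`;
* on every vertex set with `N` elements, this holds for all random programs that are symmetric
  under all permutations of the vertices. -/
theorem result (δ : ℝ) (hδ : 0 < δ) (hδ1 : δ < 1 / 2) : ∃ N0 : ℕ, ∀ N : ℕ, N0 ≤ N →
    (∃ M b : ℕ, (2 : ℝ) ^ b ≤ (N : ℝ) ^ δ ∧ M * 2 ^ b ≤ N ∧
      ∀ (W : Type) (blk : Fin M × (Fin b → ZMod 2) ↪ W) (R : RSDP (Sym2 W)),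
        TransSym R blk → SepChi R ((N : ℝ) ^ δ) ((N : ℝ) ^ (1 - δ)) →
        ∀ s : ℕ, (∀ ω, Fintype.card (R.D ω) ≤ s) → (2 : ℝ) ^ ((N : ℝ) ^ (δ / 2)) ≤ s) ∧
    ∀ (W : Type) [Fintype W], Fintype.card W = N →
      ∀ R : RSDP (Sym2 W), FullSym R → SepChi R ((N : ℝ) ^ δ) ((N : ℝ) ^ (1 - δ)) →
        ∀ s : ℕ, (∀ ω, Fintype.card (R.D ω) ≤ s) → (2 : ℝ) ^ ((N : ℝ) ^ (δ / 2)) ≤ s := by
  obtain ⟨N0, h0⟩ := chi_poly δ hδ (by linarith)
  refine ⟨N0, fun N hN => ?_⟩
  obtain ⟨M, b, h1, h2, h3⟩ := h0 N hN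
  refine ⟨⟨M, b, h1, h2, h3⟩, ?_⟩
  intro W _ hW R hR hsep s hs
  obtain ⟨blk⟩ : Nonempty (Fin M × (Fin b → ZMod 2) ↪ W) := by
    apply Function.Embedding.nonempty_of_card_le
    rw [Fintype.card_prod, Fintype.card_fin, Fintype.card_fun, ZMod.card, Fintype.card_fin, hW]
    exact h2
  exact h3 W blk R (fun ω γ => hR ω _) hsep s hs

end Pool.Agent.Results.MP_f404b1_lc.ChromaticGapSDP
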