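import Pool.Agent.H620R2.Gauge.Cover
import Pool.Agent.H620R2.Gauge.NonNull
import Pool.Agent.H620R2.Gauge.P
import Pool.Agent.H620R2.Gauge.Upper
import Pool.Agent.H620R2.Gauge.U1
import Pool.Agent.H620R2.Gauge.U2

/-!
# How many oracles make `P` and `PSPACE` equal?

For every gauge `f`, the set of the oracles `A` with `P^A = PSPACE^A` is a null set for `f` if and
only if for every `ε > 0` there are infinitely many `N` with `f N ≤ 2 ^ ((log N) ^ ε)`. The same
holds for every set of oracles which contains all `A` such that every language in `PSPACE^A` is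
polynomial-time many-one reducible to `A`, and such that `PSPACE^A` is contained in `PH^A/poly`
for all its elements `A`.
-/

namespace Pool.Agent.Results.MP_f404b1_lc.GaugeThreshold

open Pool.Agent.NPC Pool.Agent.H620R2.Gauge

theorem result (f : ℕ → ℝ) :
    (∀ O : Set Oracle,
      (∀ A : Oracle, (∀ L, IsPSPACE A L → Reduces L {x | A x = true}) → A ∈ O) →
      (∀ A ∈ O, ∀ L, IsPSPACE A L → IsPHpoly A L) →
      (Null f O ↔
        ∀ ε : ℝ, 0 < ε → ∃ᶠ N : ℕ in Filter.atTop, f N ≤ 2 ^ (Real.logb 2 N) ^ ε)) ∧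
    (Null f {A : Oracle | ∀ L, IsP A L ↔ IsPSPACE A L} ↔
      ∀ ε : ℝ, 0 < ε → ∃ᶠ N : ℕ in Filter.atTop, f N ≤ 2 ^ (Real.logb 2 N) ^ ε) ∧
    (Null f {A : Oracle | ∀ L, IsPH A L ↔ IsPSPACE A L} ↔
      ∀ ε : ℝ, 0 < ε → ∃ᶠ N : ℕ in Filter.atTop, f N ≤ 2 ^ (Real.logb 2 N) ^ ε) := by
  have key : ∀ O : Set Oracle,
      (∀ A : Oracle, (∀ L, IsPSPACE A L → Reduces L {x | A x = true}) → A ∈ O) →
      (∀ A ∈ O, ∀ L, IsPSPACE A L → IsPHpoly A L) →
      (Null f O ↔
        ∀ ε : ℝ, 0 < ε → ∃ᶠ N : ℕ in Filter.atTop, f N ≤ 2 ^ (Real.logb 2 N) ^ ε) := by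
    intro O h1 h2
    constructor
    · intro hn ε hε
      by_contra hcon
      rw [Filter.not_frequently] at hcon
      exact not_null f ε hε (hcon.mono fun N h => not_le.1 h) O h1 hn
    · intro hf
      exact null_of_frequently f hf O fun A hA => h2 A hA _ (parLang_pspace A)
  refine ⟨key, key _ ?_ ?_, key _ ?_ ?_⟩
  · intro A hA L
    exact ⟨fun h => h.isPSPACE, fun h => isP_of_reduces (hA L h)⟩
  · intro A hA L hL
    exact ((hA L).2 hL).isPHpoly
  · intro A hA L
    exact ⟨fun h => h.isPSPACE, fun h => (isP_of_reduces (hA L h)).isPH⟩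
  · intro A hA L hL
    exact ((hA L).2 hL).isPHpoly

end Pool.Agent.Results.MP_f404b1_lc.GaugeThreshold
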