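import Pool.Agent.H554R2.RK.Par

/-!
# The parity of a constant number of one-pass programs and programs with unbounded error

For every `k` there are functions `f` of `n` Boolean variables which are the parity of a constant
number of functions computed by read-once branching programs with `O(n)` nodes, with a fixed order
of the variables, while randomised read-`k`-times branching programs with fewer than `2 ^ (n / D)`
nodes compute `f` with an advantage of at most `2 ^ (- n / D)` over guessing: an analogue of
`PSPACE ⊈ PP` (more precisely of `⊕P ⊈ PP`), which is stronger than `P ≠ PSPACE`.

The functions are given by random quadratic forms in blocks, the blocks coming from a constant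
number of random partitions of the variables.  The inputs accepted by a deterministic
read-`k`-times program are a disjoint union of few rectangles (greedy cut of the computation, random
colourings of the pieces), and the sign of the parity of the forms has exponentially small sums over
large rectangles.

The lemmas were proved together with helper55, helper92, helper132, helper143, helper218, helper234,
helper259, helper409, helper431, helper463, helper556, helper724, helper819, helper873, and the
authors of `Pool.Agent.H554R2.Rnd` (random partitions and coefficients).
-/

set_option autoImplicit false

open Finset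

namespace Pool.Agent.Results.MP_f404b1_lc.ParityReadK

open Pool.Agent.H554R2.Sem Pool.Agent.H554R2.Coin Pool.Agent.H554R2.RK

/-- For every `k` there is a constant `D` such that for all `n ≥ D` there are `m ≤ D` functions
`q j` of `n` Boolean variables with the following properties.

* Each `q j` is computed by a deterministic program with at most `D n` nodes, which on all inputs
  queries the same variables in the same order, each of them at most once.
* If `P ω`, `ω ∈ Ω`, are deterministic programs with fewer than `2 ^ (n / D)` nodes which on every
  path of the graph query every variable at most `k` times, then for some input `x` at most the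
  fraction `1 / 2 + 2 ^ (- n / D) / 2` of them accept `x` if and only if an odd number of the
  `q j x` are true. -/
theorem result (k : ℕ) : ∃ D : ℕ, 0 < D ∧ ∀ n ≥ D, ∃ (m : ℕ) (q : Fin m → Pt n → Bool), m ≤ D ∧
    (∀ j, ∃ (U : BP (Fin n) Bool) (l : List (Fin n)), Fintype.card U.State ≤ D * n ∧ l.Nodup ∧
      ∀ x : Pt n, U.Comp x l (q j x)) ∧
    ∀ (Ω : Type) [Fintype Ω] [Nonempty Ω] (P : Ω → NBP (Fin n)), (∀ ω, ReadK (P ω) k) →
      (∀ ω, Determ (P ω)) → (∀ ω, Fintype.card (P ω).State < 2 ^ (n / D)) →
        ∃ x, 2 ^ (n / D) * (2 * Nat.card {ω // Acc (P ω) x ↔
          Odd (univ.filter (fun j => q j x = true)).card}) ≤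
            (2 ^ (n / D) + 1) * Nat.card Ω := by
  obtain ⟨D, hD, h⟩ := par_final k 0
  refine ⟨D, hD, fun n hn => ?_⟩
  obtain ⟨m, q, hm, hq, -, h2⟩ := h n hn
  exact ⟨m, q, hm, hq, h2⟩

end Pool.Agent.Results.MP_f404b1_lc.ParityReadK
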