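import Pool.Agent.H630QS.Low
import Pool.Agent.H630QS.T1
import Pool.Agent.H630QS.T3
import Pool.Agent.H630SD.T2
import Pool.Agent.H630SD.T3
import Pool.Agent.H630SD.T6

/-!
# A dichotomy for quantified Boolean constraint languages and monotone circuits

A Boolean constraint language is a family of relations on `{0,1}`.  An instance is a prenex sentence
over the variables `0, ..., n - 1`: a set `U` of variables (the universal ones) and a set `F` of
constraints.  That the sentence is false is a monotone property of the pair `(U, F)`.  The problem is
PSPACE-complete for most languages.

(A) If the language is finite and closed under AND, OR or majority, the truth of the sentences over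
`n` variables (with arbitrary prefix) is decided by AND/OR circuits of size polynomial in `n`.

(B) For every other language (finite or not), already for the prefix with a single universal
variable, `∃ ∀ ∃ ∃ ⋯ ∃`, every family of circuits that decides the truth with advantage `ξ` over `N`
variables contains a circuit of size larger than `2 ^ (N ^ c)`, even if the gates are arbitrary
nondecreasing functions of two real numbers and further, arbitrary gates are allowed, the product of
the numbers `w + 1` (`w` the number of wires of the further gate) being at most `N ^ a`; for NOT
gates this means `a * log2 N` of them.  Here `a < 1` is arbitrary, `c` is any positive number smaller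
than `(1 - a) / 52`, and `N` has to be larger than a number that depends only on `a`, `c` and `ξ`.

Without universal variables (`MP_d26a53_lc.SchaeferDichotomy`) the languages closed under one of the
constants are easy, too; one universal variable makes them hard.

Proof of (A): the sentence is true iff it is true for all strategies of the universal player that
deviate from a fixed constant in at most two variables (collapsibility, module `T1`, helper575);
each of these games is an ordinary instance with four copies of the variables for the language with
constants (`T2` helper368, `T3` helper439), and those are decided by unit propagation or 2-SAT (module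
`H630SD`, helpers 541 455 220 459 403).

Proof of (B): by Post's classification the idempotent polymorphisms of the language preserve the
relations `y1 + y2 + y3 + y4 = β`, so each equation is expressed by the language with a table of
`2 ^ 8` further variables that is forced to be idempotent by the first variable and the universal
one, the universal player choosing the value that is different from the first variable (`Gad`).
The rest is a random walk over blocks of linear equations as in `MP_d26a53_lc.SchaeferDichotomy`.
-/

open scoped Classical
open Finset

namespace Pool.Agent.Results.MP_f404b1_lc.QuantifiedDichotomy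

open H630VC H630XR H630SD H630QS

theorem result :
    -- (A) finite languages closed under AND, OR or majority have polynomial-size monotone circuits
    (∀ (ι : Type) [Fintype ι] (ar : ι → ℕ) (rel : ∀ i, Set (Fin (ar i) → Bool)), QEasy rel →
      ∃ C : ℕ, ∀ n : ℕ, ∃ l : List ((Set (Fin n) × Set (Con ar (Fin n))) → ℝ),
        MProg (qBits ar n) l ∧ l.length ≤ C * (n + 1) ^ C ∧
        (fun I => if QTrue rel I.1 I.2 then (0 : ℝ) else 1) ∈ l) ∧
    -- (B) all other languages need exponential size, for the prefix with one universal variable
    (∀ a c ξ : ℝ, 0 ≤ a → a < 1 → 0 < c → c < (1 - a) / 52 → 0 < ξ →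
      ∃ N₀ : ℕ, ∀ N : ℕ, N₀ ≤ N → ∀ (ι : Type) (ar : ι → ℕ)
        (rel : ∀ i, Set (Fin (ar i) → Bool)), ¬ QEasy rel →
        ∀ (R : Type) [Fintype R] [Nonempty R] (f : R → Set (Con ar (Fin N)) → ℝ)
          (l : R → List (Set (Con ar (Fin N)) → ℝ))
          (q : R → List (List ((Set (Con ar (Fin N)) → ℝ) × ℝ))),
          (∀ r, FProg (conInputs ar (Fin N)) (l r) (q r)) → (∀ r, f r ∈ l r) →
          DecidesQ rel ξ f → (∀ r, (combos (q r) : ℝ) ≤ (N : ℝ) ^ a) →
          ∃ r, (2 : ℝ) ^ ((N : ℝ) ^ c) < (l r).length + wires (q r)) := by
  refine ⟨?_, fun a c ξ h1 h2 h3 h4 h5 => lowerQ a c ξ h1 h2 h3 h4 h5⟩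
  intro ι _ ar rel hE
  rcases hE with h | h | h
  · have hP : Pol (relP rel) (fun x : Fin 2 → Bool => x 0 && x 1) := pol_relP _ h rfl rfl
    exact qupper true (fun n U F => ⟨fun hq p _ q _ => game_of_true U F hq true p q,
      fun hg => true_of_game U F true (Or.inl ⟨h, rfl⟩) hg⟩) (upper_and hP)
  · have hP : Pol (relP rel) (fun x : Fin 2 → Bool => x 0 || x 1) := pol_relP _ h rfl rfl
    exact qupper false (fun n U F => ⟨fun hq p _ q _ => game_of_true U F hq false p q,
      fun hg => true_of_game U F false (Or.inr (Or.inl ⟨h, rfl⟩)) hg⟩)
      (upper_or (fun rel' h' => upper_and h') hP)
  · have hP : Pol (relP rel) (fun x : Fin 3 → Bool => (x 0 && x 1) || (x 0 && x 2) ||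
      (x 1 && x 2)) := pol_relP _ h rfl rfl
    exact qupper false (fun n U F => ⟨fun hq p _ q _ => game_of_true U F hq false p q,
      fun hg => true_of_game U F false (Or.inr (Or.inr ⟨h, rfl⟩)) hg⟩) (upper_maj hP)

end Pool.Agent.Results.MP_f404b1_lc.QuantifiedDichotomy
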